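import Pool.Agent.X243.EqTest.Petersen2

/-!
# Equality testing on graphs: the Petersen graph has `f = 5 < c₂ / 2`

This answers Q1 of `MP_01a55a_lc` in the negative.
-/

open Finset Filter Topology
open Pool.Agent.X243.EqTest

namespace Pool.Agent.Results.MP_01a55a_lc.PetersenCost

/-- `μ u v` is the multiplicity of the edge `uv` in a 2-edge-connected spanning subgraph of `G` that
uses every edge of `G` at most twice (every cut contains at least two edges of the subgraph). -/
structure IsTwoEdgeConnectedSpanning {V : Type*} [Fintype V] [DecidableEq V] (G : SimpleGraph V)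
    (μ : V → V → ℕ) : Prop where
  symm : ∀ u v, μ u v = μ v u
  le_two : ∀ u v, μ u v ≤ 2
  adj : ∀ u v, ¬ G.Adj u v → μ u v = 0
  cut : ∀ S : Finset V, S.Nonempty → S ≠ univ → 2 ≤ ∑ u ∈ S, ∑ v ∈ Sᶜ, μ u v

/-- `c₂(G)`: the least number of edges of such a subgraph. -/
noncomputable def c2 {V : Type*} [Fintype V] [DecidableEq V] (G : SimpleGraph V) : ℕ :=
  sInf {c | ∃ μ, IsTwoEdgeConnectedSpanning G μ ∧ ∑ u, ∑ v, μ u v = 2 * c}

/-- an optimal subgraph of the Petersen graph -/
def mu11 (u v : Fin 10) : ℕ :=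
  if ∃ e : Fin 15, e ∈ ([0, 1, 2, 3, 4, 5, 6, 7, 9, 10, 14] : List (Fin 15)) ∧
    ((pSrc e = u ∧ pTgt e = v) ∨ (pSrc e = v ∧ pTgt e = u)) then 1 else 0

set_option maxRecDepth 100000 in
lemma mu11_spanning : IsTwoEdgeConnectedSpanning petersen mu11 where
  symm := by decide +kernel
  le_two := by decide +kernel
  adj := by decide +kernel
  cut := by decide +kernel

/-- For the Petersen graph `P`, `f(P) = 5` and `c₂(P) = 11`; so `f(P) < c₂(P) / 2`. -/
theorem result : petersen.Connected ∧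
    Tendsto (fun n : ℕ => (eqCost petersen n : ℝ) / n) atTop (𝓝 5) ∧ c2 petersen = 11 := by
  refine ⟨petersen_conn, petersen_limit, ?_⟩
  have h11 : 11 ∈ {c | ∃ μ, IsTwoEdgeConnectedSpanning petersen μ ∧ ∑ u, ∑ v, μ u v = 2 * c} :=
    ⟨mu11, mu11_spanning, by decide +kernel⟩
  apply le_antisymm
  · exact Nat.sInf_le h11
  · apply le_csInf ⟨11, h11⟩
    rintro c ⟨μ, hμ, hc⟩
    have h := total_ge μ hμ.symm hμ.adj hμ.cut
    omega

end Pool.Agent.Results.MP_01a55a_lc.PetersenCost
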